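import Mathlib

set_option autoImplicit false

namespace Pool.Agent.Results.MP_8dfbdc_an.Cone

open Filter Topology

abbrev X := Fin 3 → ℝ

noncomputable def g (p : X) : ℝ :=
  (p 2 + 101 / 1000 * p 0 ^ 3) / (1 + (p 0 ^ 2 + p 1 ^ 2 + p 2 ^ 2))

noncomputable def f (p : X) : X := ![p 0, p 1, g p]

lemma bd (x y z a b c r : ℝ) (ha : |a| ≤ r) (hb : |b| ≤ r) (hc : |c| ≤ r) :
    (c + 101 / 1000 * (3 * x ^ 2 * a)) * (1 + (x ^ 2 + y ^ 2 + z ^ 2)) -
      (z + 101 / 1000 * x ^ 3) * (2 * x * a + 2 * y * b + 2 * z * c) ≤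
      r * (1 + (x ^ 2 + y ^ 2 + z ^ 2)) ^ 2 := by
  set Q := x ^ 2 + y ^ 2 + z ^ 2 with hQ
  have key : ∀ s t u : ℝ, (s = 1 ∨ s = -1) → (t = 1 ∨ t = -1) → (u = 1 ∨ u = -1) →
      s * (303 / 1000 * x ^ 2 * (1 + Q) - 2 * x * (z + 101 / 1000 * x ^ 3)) +
        t * (2 * y * (z + 101 / 1000 * x ^ 3)) +
        u * (1 + Q - 2 * z * (z + 101 / 1000 * x ^ 3)) ≤ (1 + Q) ^ 2 := by
    have hx : x ^ 2 ≤ Q := by nlinarith [sq_nonneg y, sq_nonneg z]
    have h1 : x ^ 2 * Q ≤ Q ^ 2 := by nlinarith [sq_nonneg x]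
    have h2 : x ^ 4 ≤ Q ^ 2 := by nlinarith [sq_nonneg x]
    have h3 : ∀ w, w ^ 2 + x ^ 2 ≤ Q → 2 * (w * x ^ 3) ≤ Q ^ 2 := fun w h => by
      have : 2 * (w * x) ≤ Q := by nlinarith [sq_nonneg (w - x)]
      nlinarith [sq_nonneg x]
    have y1 := h3 y (by nlinarith [sq_nonneg z])
    have y2 := h3 (-y) (by nlinarith [sq_nonneg z])
    have z1 := h3 z (by nlinarith [sq_nonneg y])
    have z2 := h3 (-z) (by nlinarith [sq_nonneg y])
    have h4 : 0 ≤ x ^ 2 * Q := by nlinarith [sq_nonneg x]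
    rintro s t u (rfl | rfl) (rfl | rfl) (rfl | rfl) <;>
      nlinarith [sq_nonneg (2 * x - 3 * z), sq_nonneg (2 * x + 3 * z), sq_nonneg (2 * y - 3 * z),
        sq_nonneg (2 * y + 3 * z), sq_nonneg (2 * x - z), sq_nonneg (2 * x + z),
        sq_nonneg (2 * y - z), sq_nonneg (2 * y + z), sq_nonneg x, sq_nonneg y, sq_nonneg z,
        sq_nonneg (x ^ 2)]
  have sg : ∀ A a : ℝ, |a| ≤ r → ∃ s : ℝ, (s = 1 ∨ s = -1) ∧ A * a ≤ r * (s * A) := fun A a h => by
    have := abs_le.1 h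
    rcases le_total 0 A with k | k
    · exact ⟨1, .inl rfl, by nlinarith⟩
    · exact ⟨-1, .inr rfl, by nlinarith⟩
  obtain ⟨s, s1, s2⟩ := sg (303 / 1000 * x ^ 2 * (1 + Q) - 2 * x * (z + 101 / 1000 * x ^ 3)) a ha
  obtain ⟨t, t1, t2⟩ := sg (2 * y * (z + 101 / 1000 * x ^ 3)) (-b) (by rwa [abs_neg])
  obtain ⟨u, u1, u2⟩ := sg (1 + Q - 2 * z * (z + 101 / 1000 * x ^ 3)) c hc
  have := mul_le_mul_of_nonneg_left (key s t u s1 t1 u1) ((abs_nonneg a).trans ha)
  linarith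

lemma lip (p q : X) : |g q - g p| ≤ ‖q - p‖ := by
  set v := q - p with hv
  have l : ∀ (i : Fin 3) (t : ℝ), HasDerivAt (fun t => p i + t * v i) (v i) t := fun i t => by
    simpa using ((hasDerivAt_id t).mul_const (v i)).const_add (p i)
  have := norm_image_sub_le_of_norm_deriv_le_segment_01' (f := fun t => g (p + t • v)) (C := ‖v‖)
    (fun t _ => (((l 2 t).add (((l 0 t).pow 3).const_mul (101 / 1000))).div
      (((((l 0 t).pow 2).add ((l 1 t).pow 2)).add ((l 2 t).pow 2)).const_add 1)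
      (by simp only [Pi.add_apply, Pi.pow_apply]; positivity)).hasDerivWithinAt) fun t _ => by
      have n : ∀ i, |v i| ≤ ‖v‖ := fun i => norm_le_pi_norm v i
      have a := bd (p 0 + t * v 0) (p 1 + t * v 1) (p 2 + t * v 2) _ _ _ _ (n 0) (n 1) (n 2)
      have b := bd (p 0 + t * v 0) (p 1 + t * v 1) (p 2 + t * v 2) (-v 0) (-v 1) (-v 2) ‖v‖
        (by rw [abs_neg]; exact n 0) (by rw [abs_neg]; exact n 1) (by rw [abs_neg]; exact n 2)
      simp only [Real.norm_eq_abs, Pi.add_apply, Pi.pow_apply, abs_div, Nat.cast_ofNat,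
        Nat.add_one_sub_one, pow_one]
      rw [abs_sq, div_le_iff₀ (by positivity), abs_le]
      constructor <;> linarith
  simpa [hv] using this

lemma fix (p : X) : f p = p ↔ p 2 * (p 0 ^ 2 + p 1 ^ 2 + p 2 ^ 2) = 101 / 1000 * p 0 ^ 3 := by
  have : g p = p 2 ↔ p 2 * (p 0 ^ 2 + p 1 ^ 2 + p 2 ^ 2) = 101 / 1000 * p 0 ^ 3 := by
    rw [g, div_eq_iff (by positivity)]
    constructor <;> intro h <;> linarith
  rw [← this, funext_iff, Fin.forall_fin_succ, Fin.forall_fin_two]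
  simp [f]

theorem result : ∃ f : X → X, (∀ p q, ‖f p - f q‖ ≤ ‖p - q‖) ∧ AnalyticOnNhd ℝ f Set.univ ∧
    f 0 = 0 ∧ ¬∃ (ψ : OpenPartialHomeomorph X X) (L : Submodule ℝ X), 0 ∈ ψ.source ∧
      ContDiffOn ℝ 1 ψ ψ.source ∧ ContDiffOn ℝ 1 ψ.symm ψ.target ∧
      ψ '' (ψ.source ∩ {p | f p = p}) = ψ.target ∩ L := by
  refine ⟨f, fun p q => (pi_norm_le_iff_of_nonneg (norm_nonneg _)).2 fun i => ?_,
    fun p _ => ?_, (fix 0).2 (by simp), ?_⟩
  · fin_cases i
    · exact norm_le_pi_norm (p - q) 0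
    · exact norm_le_pi_norm (p - q) 1
    · exact lip q p
  · have c : ∀ i : Fin 3, AnalyticAt ℝ (fun q : X => q i) p := fun i =>
      (ContinuousLinearMap.proj (R := ℝ) (φ := fun _ : Fin 3 => ℝ) i).analyticAt p
    refine analyticAt_pi_iff.2 fun i => ?_
    fin_cases i
    · exact c 0
    · exact c 1
    · exact ((c 2).add (analyticAt_const.mul ((c 0).pow 3))).div
        (analyticAt_const.add ((((c 0).pow 2).add ((c 1).pow 2)).add ((c 2).pow 2)))
        (by positivity)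
  rintro ⟨ψ, L, h0, h1, h2, h⟩
  have t0 := ψ.map_source h0
  have n0 := ψ.open_source.mem_nhds h0
  have n1 := ψ.open_target.mem_nhds t0
  have dA := ((h1.contDiffAt n0).differentiableAt one_ne_zero).hasFDerivAt
  have dB := ((h2.contDiffAt n1).differentiableAt one_ne_zero).hasFDerivAt
  generalize fderiv ℝ ψ 0 = A at dA
  generalize fderiv ℝ ψ.symm (ψ 0) = B at dB
  have BA : B.comp A = .id ℝ X := (dB.comp 0 dA).unique ((hasFDerivAt_id 0).congr_of_eventuallyEq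
    (mem_of_superset n0 fun x hx => ψ.left_inv hx))
  have mem : ∀ x ∈ ψ.source, f x = x → ψ x ∈ L := fun x a b =>
    (h.subset ⟨x, ⟨a, b⟩, rfl⟩).2
  have m0 := mem 0 h0 ((fix 0).2 (by simp))
  have line : ∀ a w : X, HasDerivAt (fun t : ℝ => a + t • w) w 0 := fun a w => by
    simpa using ((hasDerivAt_id (0 : ℝ)).smul_const w).const_add a
  have k1 : ∀ u, f u = u → A u ∈ L := fun u hu => by
    have d := (HasFDerivAt.comp_hasDerivAt_of_eq 0 dA (line 0 u) (by simp)).tendsto_slope_zero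
    refine L.closed_of_finiteDimensional.mem_of_tendsto d (mem_nhdsWithin_of_mem_nhds ?_)
    filter_upwards [(line 0 u).continuousAt.preimage_mem_nhds (by simpa using n0)] with t ht
    refine L.smul_mem _ (L.sub_mem (mem _ (by simpa using ht) ?_) (by simpa using m0))
    rw [fix] at hu ⊢
    simp only [zero_add, Pi.smul_apply, smul_eq_mul]
    linear_combination t ^ 3 * hu
  have k2 : ∀ w, A w ∈ L → f w = w := fun w hw => by
    have d := (HasFDerivAt.comp_hasDerivAt_of_eq 0 dB (line (ψ 0) (A w)) (by simp)).tendsto_slope_zero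
    rw [show B (A w) = w from congrArg (· w) BA] at d
    have cl : IsClosed {p : X | p 2 * (p 0 ^ 2 + p 1 ^ 2 + p 2 ^ 2) = 101 / 1000 * p 0 ^ 3} :=
      isClosed_eq (by fun_prop) (by fun_prop)
    refine (fix w).2 (cl.mem_of_tendsto d (mem_nhdsWithin_of_mem_nhds ?_))
    filter_upwards [(line (ψ 0) (A w)).continuousAt.preimage_mem_nhds (by simpa using n1)]
      with t ht
    obtain ⟨x, ⟨a, b⟩, c⟩ := h.superset ⟨ht, L.add_mem m0 (L.smul_mem t hw)⟩
    have := (fix x).1 b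
    simp only [zero_add, Function.comp_apply, zero_smul, add_zero, ψ.left_inv h0, sub_zero, ← c,
      ψ.left_inv a, Pi.smul_apply, smul_eq_mul]
    linear_combination t⁻¹ ^ 3 * this
  have := k2 (![10, 0, 1] + ![0, 1, 0]) (by
    rw [map_add]
    exact L.add_mem (k1 _ ((fix _).2 (by simp; norm_num))) (k1 _ ((fix _).2 (by simp))))
  rw [fix] at this
  simp at this
  norm_num at this

end Pool.Agent.Results.MP_8dfbdc_an.Cone
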